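import Pool.Agent.Lib.MP_9cc147_pr.Main

open Filter

namespace Pool.Agent.Results.MP_9cc147_pr.BoundedCurvature

/-- nearest neighbour edges of the box with side `n + 1`, each counted once -/
def edges (n : ℕ) : Finset ((Fin (n + 1) × Fin (n + 1)) × (Fin (n + 1) × Fin (n + 1))) :=
  Finset.univ.filter fun e => (e.2.1.val = e.1.1.val + 1 ∧ e.2.2.val = e.1.2.val) ∨
    (e.2.1.val = e.1.1.val ∧ e.2.2.val = e.1.2.val + 1)

/-- unnormalised Gibbs weight, pinned at the corner `(0,0)` -/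
noncomputable def weight (U : ℝ → ℝ) (M : ℝ) (n : ℕ) (m : Fin (n + 1) × Fin (n + 1) → ℤ) : ℝ :=
  if m (0, 0) = 0 then Real.exp (-∑ e ∈ edges n, U (((m e.1 - m e.2 : ℤ) : ℝ) / M)) else 0

theorem result (A : ℝ) : ∃ β : ℝ, 0 < β ∧ ∀ (U : ℝ → ℝ) (α M : ℝ), ContDiff ℝ 2 U →
    (∀ x, U (-x) = U x) → 0 < α → Tendsto (fun x => U x / x ^ α) atTop atTop → 0 < M →
    (∀ x, |deriv (deriv U) x| ≤ β * M ^ 2) → ∀ n : ℕ, 1 ≤ n →
      Summable (weight U M n) ∧
      Summable (fun m => (m (Fin.last n, Fin.last n) : ℝ) ^ 2 * weight U M n m) ∧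
      A * Real.log (n + 1) ≤
        (∑' m, (m (Fin.last n, Fin.last n) : ℝ) ^ 2 * weight U M n m) / ∑' m, weight U M n m := by
  obtain ⟨β, hβ, h⟩ := Pool.Agent.Lib.MP_9cc147_pr.core A
  refine ⟨β, hβ, fun U α M hU he hα ht hM hB n hn => h (fun k => U (k / M)) (fun k => ?_)
    (Pool.Agent.Lib.MP_9cc147_pr.grow_of hU.continuous he hα ht hM) n hn⟩
  have := Pool.Agent.Lib.MP_9cc147_pr.d2_le hU hB (k / M) (1 / M)
  rw [← add_div, ← sub_div, show β * M ^ 2 * (1 / M) ^ 2 = β by field_simp] at this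
  simpa [Pool.Agent.Lib.MP_9cc147_pr.d2] using this

end Pool.Agent.Results.MP_9cc147_pr.BoundedCurvature
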