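import Pool.Agent.Lib.MP_9cc147_pr.Cx.Last
import Pool.Agent.Lib.MP_9cc147_pr.Cx.Top

open Filter Topology

namespace Pool.Agent.Results.MP_9cc147_pr.NoLimit

/-- nearest neighbour edges of the box with side `n + 1`, each counted once -/
def edges (n : ℕ) : Finset ((Fin (n + 1) × Fin (n + 1)) × (Fin (n + 1) × Fin (n + 1))) :=
  Finset.univ.filter fun e => (e.2.1.val = e.1.1.val + 1 ∧ e.2.2.val = e.1.2.val) ∨
    (e.2.1.val = e.1.1.val ∧ e.2.2.val = e.1.2.val + 1)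

/-- unnormalised Gibbs weight, pinned at the corner `(0,0)` -/
noncomputable def weight (U : ℝ → ℝ) (M : ℝ) (n : ℕ) (m : Fin (n + 1) × Fin (n + 1) → ℤ) : ℝ :=
  if m (0, 0) = 0 then Real.exp (-∑ e ∈ edges n, U (((m e.1 - m e.2 : ℤ) : ℝ) / M)) else 0

/-- second moment of the height at the opposite corner, divided by the logarithm of the side -/
noncomputable def ratio (U : ℝ → ℝ) (M : ℝ) (n : ℕ) : ℝ :=
  (∑' m, (m (Fin.last n, Fin.last n) : ℝ) ^ 2 * weight U M n m) / (∑' m, weight U M n m) /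
    Real.log (n + 1)

theorem result : ∃ U : ℝ → ℝ, ContDiff ℝ (⊤ : ℕ∞) U ∧ (∀ x, U (-x) = U x) ∧
    (∃ α : ℝ, 0 < α ∧ Tendsto (fun x => U x / x ^ α) atTop atTop) ∧
    ∃ M₀ : ℝ, 0 < M₀ ∧ ∀ M : ℝ, M₀ < M →
      (∀ n : ℕ, Summable (weight U M n) ∧
        Summable fun m => (m (Fin.last n, Fin.last n) : ℝ) ^ 2 * weight U M n m) ∧
      (∃ a b : ℝ, a < b ∧ (∃ᶠ n : ℕ in atTop, ratio U M n ≤ a) ∧
        ∃ᶠ n : ℕ in atTop, b ≤ ratio U M n) ∧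
      ¬ ∃ c : EReal, Tendsto (fun n : ℕ => ((ratio U M n : ℝ) : EReal)) atTop (𝓝 c) := by
  obtain ⟨U, h1, h2, h3, M₀, h4, h5⟩ :=
    Pool.Agent.Lib.MP_9cc147_pr.Cx.last Pool.Agent.Lib.MP_9cc147_pr.Cx.top_main
  have e : weight = Pool.Agent.Lib.MP_9cc147_pr.Cx.weight := by
    funext U M n m
    have e1 : edges n = Pool.Agent.Lib.MP_9cc147_pr.Cx.edges n := by
      ext e; simp [edges, Pool.Agent.Lib.MP_9cc147_pr.Cx.edges]
    unfold weight Pool.Agent.Lib.MP_9cc147_pr.Cx.weight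
    rw [e1]
  refine ⟨U, h1, h2, h3, M₀, h4, fun M hM => ?_⟩
  obtain ⟨k1, a, b, hab, ha, hb⟩ := h5 M hM
  unfold ratio
  rw [e]
  exact ⟨k1, ⟨a, b, hab, ha, hb⟩, Pool.Agent.Lib.MP_9cc147_pr.Cx.last_nolim hab ha hb⟩

end Pool.Agent.Results.MP_9cc147_pr.NoLimit
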